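import Pool.Agent.Lib.MP_e9e3a0_an.ExtD

set_option autoImplicit false

namespace Pool.Agent.Results.MP_e9e3a0_an.Exterior

open Pool.Agent.Lib.MP_e9e3a0_an MvPolynomial

/-- The curves that are zero sets of optimal approximants of degree `n` for some `α ≥ 0`, or for
all large `α`: the curves of degree at most `n` that miss the origin and all of whose irreducible
components meet the exterior of the bidisk. -/
theorem result (n : ℕ) (C : Set (Fin 2 → ℂ)) :
    List.TFAE [∃ α : ℝ, 0 ≤ α ∧ C ∈ Curves α n,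
      ∃ α₀ : ℝ, ∀ α : ℝ, α₀ ≤ α → C ∈ Curves α n,
      (∃ p : MvPolynomial (Fin 2) ℂ, 0 < p.totalDegree ∧ p.totalDegree ≤ n ∧ C = Z p) ∧
        (0 : Fin 2 → ℂ) ∉ C ∧
        ∀ r : MvPolynomial (Fin 2) ℂ, Irreducible r → Z r ⊆ C →
          ∃ z ∈ Z r, 1 < ‖z 0‖ ∧ 1 < ‖z 1‖] := by
  have hne : ∀ {p : MvPolynomial (Fin 2) ℂ}, 0 < p.totalDegree → p ≠ 0 := by
    rintro p h rfl; simp at h
  have hz : ∀ p : MvPolynomial (Fin 2) ℂ, (0 : Fin 2 → ℂ) ∈ Z p ↔ p.coeff 0 = 0 := fun p => by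
    change eval 0 p = 0 ↔ _
    rw [eval_zero, constantCoeff_eq]
  tfae_have 1 → 3 := by
    rintro ⟨α, hα, f, p, hf, hf0, h, hd, rfl⟩
    refine ⟨⟨p, hd, h.1, rfl⟩, fun h0 => (h.ne hf hf0 (hne hd)).1 ((hz p).1 h0), fun r hr hs => ?_⟩
    have hdvd : r ∣ p := by
      have hpr : (Ideal.span {r}).IsPrime := (Ideal.span_singleton_prime hr.ne_zero).2 hr.prime
      rw [← Ideal.mem_span_singleton, ← hpr.radical,
        ← vanishingIdeal_zeroLocus_eq_radical (K := ℂ), zeroLocus_span, mem_vanishingIdeal_iff]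
      intro z hz
      have h1 : z ∈ Z r := by simpa [aeval_eq_eval, Z] using hz _ rfl
      simpa [aeval_eq_eval, Z] using hs h1
    obtain ⟨z, h1, h2⟩ := factor_meets hα hf hf0 h (hne hd) hr hdvd
    exact ⟨z, h2, h1 0, h1 1⟩
  tfae_have 3 → 2 := by
    rintro ⟨⟨p, hd, hp, rfl⟩, h0, h⟩
    refine Filter.eventually_atTop.1 ((exists_opa_large hp (fun e => h0 ((hz p).2 e))
      fun r hr hdvd => ?_).mono fun α ⟨f, c, hf, hf0, hc, hopa⟩ => ⟨f, _, hf, hf0, hopa, ?_, ?_⟩)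
    · obtain ⟨z, h1, h2⟩ := h r hr fun z hz => by
        obtain ⟨s, rfl⟩ := hdvd
        change eval z (r * s) = 0
        rw [map_mul, show eval z r = 0 from hz, zero_mul]
      exact ⟨z, Fin.forall_fin_two.2 h2, h1⟩
    · rw [totalDegree_mul_of_isDomain (by simpa using hc) (hne hd)]; omega
    · ext z; simp [Z, hc]
  tfae_have 2 → 1 := fun ⟨α₀, h⟩ => ⟨max α₀ 0, le_max_right _ _, h _ (le_max_left _ _)⟩
  tfae_finish

end Pool.Agent.Results.MP_e9e3a0_an.Exterior
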