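import Pool.Agent.Lib.MP_e9e3a0_an.AllFacts

set_option autoImplicit false

namespace Pool.Agent.Results.MP_e9e3a0_an.HardyCurves

open Pool.Agent.Lib.MP_e9e3a0_an MvPolynomial

/-- The zero sets of the nonconstant optimal approximants of degree `n` in the Hardy space of the
bidisk, for every `n`; they are the curves that occur for every `α`. -/
theorem result (n : ℕ) (C : Set (Fin 2 → ℂ)) :
    List.TFAE [C ∈ Curves 0 n,
      ∀ α : ℝ, C ∈ Curves α n,
      ∃ p, 0 < p.totalDegree ∧ p.totalDegree ≤ n ∧ NoCert n p ∧ C = Z p] := by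
  obtain ⟨h1, h2, -⟩ := allFacts
  tfae_have 1 → 2 := fun h α => h2 α n h
  tfae_have 2 → 1 := fun h => h 0
  tfae_have 1 ↔ 3 := by rw [h1 n]; rfl
  tfae_finish

end Pool.Agent.Results.MP_e9e3a0_an.HardyCurves
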