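import Pool.Agent.Lib.MP_e9e3a0_an.AllFacts

set_option autoImplicit false

namespace Pool.Agent.Results.MP_e9e3a0_an.LinesAlpha

open Pool.Agent.Lib.MP_e9e3a0_an MvPolynomial

/-- The lines that are zero sets, or components of zero sets, of optimal approximants in `D_α` of
the bidisk, for every `α ≥ 0`. -/
theorem result (α : ℝ) (hα : 0 ≤ α) (a b c : ℂ) (hb : b ≠ 0) (hcb : ‖c‖ ≤ ‖b‖) :
    List.TFAE [Line a b c ∈ Curves α 1,
      Line a c b ∈ Curves α 1,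
      ∃ n, ∃ C ∈ Curves α n, Line a b c ⊆ C,
      ∃ n, ∃ C ∈ Curves α n, Line a c b ⊆ C,
      ∀ β γ, Cert1 α a b c β γ → β = 0 ∧ γ = 0] := by
  obtain ⟨-, -, -, h4, h5, -, h7⟩ := allFacts
  tfae_have 1 ↔ 2 := h4 α 1 a b c
  tfae_have 1 → 3 := fun h => ⟨1, _, h, subset_rfl⟩
  tfae_have 3 → 1 := fun ⟨n, C, hC, h⟩ => h5 α n a b c (Or.inl hb) C hC h
  tfae_have 2 → 4 := fun h => ⟨1, _, h, subset_rfl⟩
  tfae_have 4 → 2 := fun ⟨n, C, hC, h⟩ => h5 α n a c b (Or.inr hb) C hC h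
  tfae_have 1 ↔ 5 := (h7 α hα a b c hb hcb).1
  tfae_finish

end Pool.Agent.Results.MP_e9e3a0_an.LinesAlpha
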