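import Pool.Agent.Lib.MP_e9e3a0_an.AllFacts

set_option autoImplicit false

namespace Pool.Agent.Results.MP_e9e3a0_an.ZeroPoints

open Pool.Agent.Lib.MP_e9e3a0_an MvPolynomial

/-- For every `α`, the points of `ℂ²` that are zeros of optimal approximants in `D_α` of the
bidisk are all points other than the origin. -/
theorem result (α : ℝ) (w : Fin 2 → ℂ) :
    List.TFAE [∃ C ∈ Curves α 1, w ∈ C, ∃ n, ∃ C ∈ Curves α n, w ∈ C, w ≠ 0] := by
  obtain ⟨-, h2, -, -, -, h6, -⟩ := allFacts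
  tfae_have 1 → 2 := fun h => ⟨1, h⟩
  tfae_have 2 → 3 := by
    rintro ⟨n, _, ⟨f, p, hf, hf0, h, hd, rfl⟩, hw⟩ rfl
    have hp : p ≠ 0 := by rintro rfl; simp at hd
    refine (h.ne hf hf0 hp).1 ?_
    simpa [Z, constantCoeff_eq] using hw
  tfae_have 3 → 1 := by
    intro hw
    have key : ∀ c : ℂ, ‖c‖ = 1 → w 0 + c * w 1 ≠ 0 → ∃ C ∈ Curves α 1, w ∈ C := by
      intro c hc h
      refine ⟨Line (-(w 0 + c * w 1)) 1 c, h2 α 1 ((h6 _ 1 c (Or.inl one_ne_zero)).2 ?_), ?_⟩
      · rw [norm_neg, norm_one, hc, sub_self, abs_zero]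
        exact norm_pos_iff.2 h
      · simp [Line]
    by_cases h : w 0 + 1 * w 1 = 0
    · refine key (-1) (by simp) fun h' => hw ?_
      funext i
      fin_cases i
      · show w 0 = 0
        linear_combination (h + h') / 2
      · show w 1 = 0
        linear_combination (h - h') / 2
    · exact key 1 norm_one h
  tfae_finish

end Pool.Agent.Results.MP_e9e3a0_an.ZeroPoints
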